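import Pool.Agent.MP_cce4c9_lc.H7.BaseA

/-! The full base change package. -/

set_option autoImplicit false

open WithZero TensorProduct

namespace Pool.Agent.MP_cce4c9_lc.H5

open Pool.Agent.MP_cce4c9_lc.H87 Pool.Agent.MP_cce4c9_lc.H7

namespace BckAux

variable {k K Ω : Type} [Field k] [IsAlgClosed k] [Field K] [Algebra k K] [Field Ω]
  [IsAlgClosed Ω] [Algebra k Ω]

theorem dv_ap (hK : IsFF k K) (h : K) (v : Place k K) : dv k h v = v.ord h := dv_apply (fins hK h) v

theorem two_le {α β : Type} (f : α → β) (D : α →₀ ℤ) (z : β) (h : ∀ a, f a = z → 0 ≤ D a)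
    (S : Finset α) (hS : ∀ a ∈ S, f a = z) : ∑ a ∈ S, D a ≤ D.mapDomain f z := by
  classical
  have e : D.mapDomain f z = ∑ a ∈ D.support ∪ S, if f a = z then D a else 0 := by
    rw [Finsupp.mapDomain, Finsupp.sum_apply,
      Finsupp.sum_of_support_subset _ (Finset.subset_union_left (s₂ := S)) _ (by simp)]
    simp only [Finsupp.single_apply]
  rw [e, ← Finset.sum_filter]
  exact Finset.sum_le_sum_of_subset_of_nonneg
    (fun a ha => Finset.mem_filter.2 ⟨Finset.mem_union_right _ ha, hS a ha⟩)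
    fun a ha _ => h a (Finset.mem_filter.1 ha).2

theorem lt_of_iff {Γ Γ' F F' : Type} [LinearOrderedCommGroupWithZero Γ]
    [LinearOrderedCommGroupWithZero Γ'] [Field F] [Field F'] (v : Valuation F Γ)
    (w : Valuation F' Γ') (f : F →+* F') (h : ∀ x, w (f x) ≤ 1 → v x ≤ 1) {x : F} (hx : v x < 1) :
    w (f x) < 1 := by
  by_cases h0 : x = 0
  · simp [h0]
  by_contra hc
  have h1 := h x⁻¹ (by
    rw [map_inv₀, map_inv₀]
    exact inv_le_one_of_one_le₀ (not_lt.1 hc))
  rw [map_inv₀, inv_le_one₀ (zero_lt_iff.2 (by simpa using h0))] at h1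
  exact absurd hx (not_lt.2 h1)

omit [IsAlgClosed k] in
theorem expl (hD : StmtDVR) (hC : StmtCHEV) (B : BCD k K Ω) (hF : IsFF Ω B.F)
    (R : Subalgebra k K) (χ : R →ₐ[k] Ω)
    (hne : ∃ h : R, algebraMap K B.F h ≠ algebraMap Ω B.F (χ h)) :
    ∃ w : Place Ω B.F, ∀ h : R, w.val (algebraMap K B.F h - algebraMap Ω B.F (χ h)) < 1 := by
  let Φ : Ω ⊗[k] R →ₐ[Ω] B.F := Algebra.TensorProduct.lift (Algebra.ofId Ω B.F)
    ((IsScalarTower.toAlgHom k K B.F).comp R.val) fun _ _ => Commute.all _ _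
  let Ψ : Ω ⊗[k] R →ₐ[Ω] Ω :=
    Algebra.TensorProduct.lift (AlgHom.id Ω Ω) χ fun _ _ => Commute.all _ _
  have hΦ : ∀ x, Φ x = 0 → x = 0 := by
    intro x hx
    let b := Module.Basis.ofVectorSpace k R
    have h1 := B.li _ _ (b.linearIndependent.map' R.val.toLinearMap
      (LinearMap.ker_eq_bot.2 Subtype.val_injective))
    have h2 : (fun i => algebraMap K B.F ((R.val.toLinearMap ∘ b) i)) =
        Φ.toLinearMap ∘ Algebra.TensorProduct.basis Ω b := by
      funext i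
      simp [Φ, Algebra.TensorProduct.basis_apply]
    rw [h2, linearIndependent_iff] at h1
    refine (Algebra.TensorProduct.basis Ω b).repr.map_eq_zero_iff.1 (h1 _ ?_)
    rw [← Finsupp.apply_linearCombination, Module.Basis.linearCombination_repr]
    exact hx
  obtain ⟨P, hP⟩ := hC Ω B.F (Φ.prod Ψ).toRingHom.range
    (fun c => ⟨algebraMap Ω _ c, (Φ.prod Ψ).commutes c⟩) (by
      rintro c ⟨x, hx⟩
      have h1 : Φ x = 0 := congrArg Prod.fst hx
      have h2 : Ψ x = c := congrArg Prod.snd hx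
      rw [← h2, hΦ x h1, map_zero])
  have key : ∀ h : R, P.O.valuation (algebraMap K B.F h - algebraMap Ω B.F (χ h)) < 1 := by
    intro h
    obtain ⟨h1, h2⟩ := hP (algebraMap K B.F h - algebraMap Ω B.F (χ h), 0)
      ⟨1 ⊗ₜ h - algebraMap Ω _ (χ h), by simp [Φ, Ψ]⟩
    exact (P.ker _).1 h2
  obtain ⟨w, hw⟩ := hD Ω B.F hF P.O P.mem (by
    obtain ⟨h, hh⟩ := hne
    intro e
    have h1 : (algebraMap K B.F h - algebraMap Ω B.F (χ h))⁻¹ ∈ P.O := e ▸ trivial
    rw [← ValuationSubring.valuation_le_one_iff, map_inv₀,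
      inv_le_one₀ (zero_lt_iff.2 (by simpa using sub_ne_zero.2 hh))] at h1
    exact absurd (key h) (not_lt.2 h1))
  exact ⟨w, fun h => lt_of_iff P.O.valuation w.val (RingHom.id _)
    (fun x hx => (P.O.valuation_le_one_iff x).2 ((hw x).2 hx)) (key h)⟩

variable {B : BCD k K Ω} {P : KP k Ω}

theorem disc (hK : IsFF k K) (hF : IsFF Ω B.F) (R : Red B P) {w : Place Ω B.F} {s : K}
    (hs : (R.rp w).val s = exp (-1 : ℤ)) (S : Finset (Place Ω B.F)) (hS : ∀ a ∈ S, R.rp a = R.rp w) :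
    algebraMap K B.F s - algebraMap Ω B.F (w.ev (algebraMap K B.F s)) ≠ 0 ∧
      ∑ a ∈ S, a.ord (algebraMap K B.F s - algebraMap Ω B.F (w.ev (algebraMap K B.F s))) ≤ 1 := by
  have h1 : (R.rp w).val s < 1 := by rw [hs, ← exp_zero, exp_lt_exp]; omega
  obtain ⟨ha, h2⟩ := R.rp_ev w s h1.le
  rw [Place.ev_of_lt _ h1] at h2
  let Φ : R.G := ⟨_, R.memK s⟩ - ⟨_, (R.memΩ _).2 ha⟩
  have h3 : R.red Φ = s := by
    rw [map_sub, R.redK, R.redΩ ⟨_, ha⟩, h2, map_zero, sub_zero]
  have h0 : s ≠ 0 := fun e => by simp [e] at hs; exact exp_ne_zero hs.symm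
  have h4 : (Φ : B.F) ≠ 0 := fun e => h0 (by rw [← h3, show Φ = 0 from Subtype.ext e, map_zero])
  have h5 := congrArg (fun D => D (R.rp w)) (R.rt Φ (h3 ▸ h0))
  simp only [h3, dv_ap hK, Place.ord_eq _ hs] at h5
  refine ⟨h4, ?_⟩
  rw [h5]
  refine le_trans (le_of_eq ?_) (two_le R.rp _ _ (fun a hz => ?_) S hS)
  · exact Finset.sum_congr rfl fun a _ => (dv_ap hF _ a).symm
  · rw [dv_ap hF, ← a.val_le_one (a.val_ne h4)]
    exact (a.val.map_sub _ _).trans
      (max_le ((R.rp_iff a s).1 (hz ▸ h1.le)).1 (a.const_le _))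

theorem uniq (hK : IsFF k K) (hF : IsFF Ω B.F) (R : Red B P) (w w' : Place Ω B.F)
    (h : ∀ (x : K) (a : Ω), w.val (algebraMap K B.F x - algebraMap Ω B.F a) < 1 →
      w'.val (algebraMap K B.F x - algebraMap Ω B.F a) < 1) : w = w' := by
  classical
  by_contra hne
  have h1 : R.rp w = R.rp w' := Place.eq_of_le _ _ fun x hx => by
    obtain ⟨h2, h3⟩ := (R.rp_iff w x).1 hx
    have h4 := h x _ ((res hF w).ev_spec h2)
    exact (R.rp_iff w' x).2 ⟨w'.le_of_sub_lt h4, by rwa [w'.ev_eq h4]⟩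
  obtain ⟨s, hs⟩ := (R.rp w).exists_unif
  obtain ⟨h2, h3⟩ := disc hK hF R hs {w, w'} (by simp [h1])
  rw [Finset.sum_pair hne] at h3
  have h4 := (res hF w).ev_spec ((R.rp_iff w s).1
    (by rw [hs, ← exp_zero, exp_le_exp]; omega)).1
  have h5 := (w.val_lt_one (w.val_ne h2)).1 h4
  have h6 := (w'.val_lt_one (w'.val_ne h2)).1 (h _ _ h4)
  omega

omit [IsAlgClosed k] [IsAlgClosed Ω] in
theorem cst (B : BCD k K Ω) (c : k) :
    algebraMap K B.F (algebraMap k K c) = algebraMap Ω B.F (algebraMap k Ω c) := by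
  rw [← IsScalarTower.algebraMap_apply, ← IsScalarTower.algebraMap_apply]

theorem exists_io (hD : StmtDVR) (hC : StmtCHEV) (hK : IsFF k K) (hF : IsFF Ω B.F) (R : Red B P)
    (z : Place k K) : ∃ w : Place Ω B.F, ∀ h : K, w.val (algebraMap K B.F h) = z.val h := by
  let A : Subalgebra k K :=
    { z.val.valuationSubring.toSubring with algebraMap_mem' := z.const_le }
  let χ : A →ₐ[k] k :=
    { toFun := fun h => z.ev h
      map_one' := z.ev_one
      map_zero' := z.ev_zero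
      map_mul' := fun a b => (res hK z).ev_mul a.2 b.2
      map_add' := fun a b => (res hK z).ev_add a.2 b.2
      commutes' := z.ev_const }
  obtain ⟨s, hs⟩ := z.exists_unif
  have h1 : z.val s < 1 := by rw [hs, ← exp_zero, exp_lt_exp]; omega
  have h0 : s ≠ 0 := fun e => by simp [e] at hs; exact exp_ne_zero hs.symm
  obtain ⟨w, hw⟩ := expl hD hC B hF A ((Algebra.ofId k Ω).comp χ) ⟨⟨s, h1.le⟩, by
    change _ ≠ algebraMap Ω B.F (algebraMap k Ω (z.ev s))
    simpa [z.ev_of_lt h1] using h0⟩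
  have hw' : ∀ h : K, z.val h ≤ 1 →
      w.val (algebraMap K B.F h - algebraMap Ω B.F (algebraMap k Ω (z.ev h))) < 1 :=
    fun h hh => hw ⟨h, hh⟩
  have h2 : z = R.rp w := Place.eq_of_le _ _ fun x hx => (R.rp_iff w x).2
    ⟨w.le_of_sub_lt (hw' x hx), by rw [w.ev_eq (hw' x hx)]; exact P.mem _⟩
  obtain ⟨h3, h4⟩ := disc hK hF R (h2 ▸ hs) {w} (by simp)
  have h5 := hw' s h1.le
  rw [w.ev_eq h5] at h3 h4
  have h6 := (w.val_lt_one (w.val_ne h3)).1 h5
  rw [z.ev_of_lt h1, map_zero, map_zero, sub_zero] at h3 h4 h6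
  rw [Finset.sum_singleton] at h4
  have h7 : w.val (algebraMap K B.F s) = z.val s := by
    rw [w.val_eq (w.val_ne h3), hs, show w.ord (algebraMap K B.F s) = 1 by omega]
  refine ⟨w, fun h => ?_⟩
  by_cases hh : h = 0
  · simp [hh]
  have h8 : z.val (h * s ^ (-z.ord h)) = 1 := by
    rw [map_mul, map_zpow₀, hs, z.val_eq (z.val_ne hh), ← exp_zsmul, ← exp_add]
    simp
  have h9 := w.le_of_sub_lt (hw' _ h8.le)
  have h10 := w.le_of_sub_lt (hw' (h * s ^ (-z.ord h))⁻¹ (by rw [map_inv₀, h8, inv_one]))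
  rw [map_inv₀, map_inv₀, inv_le_one₀ (zero_lt_iff.2 (w.val_ne
    ((map_ne_zero _).2 (mul_ne_zero hh (zpow_ne_zero _ h0)))))] at h10
  have h11 := (le_antisymm h9 h10).trans h8.symm
  rw [map_mul, map_mul, map_mul, map_zpow₀, map_zpow₀, map_zpow₀, h7] at h11
  exact mul_right_cancel₀ (zpow_ne_zero _ (z.val_ne h0)) h11

end BckAux

open BckAux

theorem bck (hD : StmtDVR) (hC : StmtCHEV) (hB : StmtBCD) (hN : StmtNRED) (hR : StmtRED) :
    StmtBCK := by
  intro k K Ω _ _ _ _ _ _ _ hK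
  obtain ⟨⟨B⟩, hact⟩ := hB k K Ω
  obtain ⟨act, ha1, ha2⟩ := hact B
  obtain ⟨hF, hnc⟩ := hN k K Ω B hK
  obtain ⟨P, -⟩ := hC k Ω ((algebraMap k Ω).prod (RingHom.id k)).range (fun c => ⟨c, rfl⟩) (by
    rintro c ⟨x, hx⟩
    have h1 : algebraMap k Ω x = 0 := congrArg Prod.fst hx
    have h2 : x = c := congrArg Prod.snd hx
    simpa [h2] using h1)
  obtain ⟨R⟩ := hR k K Ω B P hK
  choose io hio using exists_io hD hC hK hF R
  have hpl : ∀ η : K →ₐ[k] Ω, ∃ w : Place Ω B.F,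
      ∀ h : K, w.val (algebraMap K B.F h - algebraMap Ω B.F (η h)) < 1 := by
    intro η
    obtain ⟨s, hs⟩ := hK.exists_nonconst
    obtain ⟨w, hw⟩ := expl hD hC B hF ⊤ (η.comp (Subalgebra.val ⊤))
      ⟨⟨s, trivial⟩, fun e => (hnc s hs).1 ⟨_, e.symm⟩⟩
    exact ⟨w, fun h => hw ⟨h, trivial⟩⟩
  choose pl hpl using hpl
  have hinj : Function.Injective io := fun z z' e => by
    ext h
    rw [← hio z, e, hio]
  have hor : ∀ w : Place Ω B.F,
      w ∈ Set.range io ∨ ∀ h : K, h ≠ 0 → w.val (algebraMap K B.F h) = 1 := by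
    intro w
    refine or_iff_not_imp_right.2 fun hc => ?_
    obtain ⟨z, hz⟩ := hD k K hK (w.val.comap (algebraMap K B.F)).valuationSubring
      (fun c => by
        change w.val _ ≤ 1
        rw [cst]
        exact w.const_le _) fun e => hc fun h hh => by
        have h1 : ∀ x : K, w.val (algebraMap K B.F x) ≤ 1 := fun x =>
          (e ▸ trivial : x ∈ (w.val.comap (algebraMap K B.F)).valuationSubring)
        have h2 := h1 h⁻¹
        rw [map_inv₀, map_inv₀, inv_le_one₀ (zero_lt_iff.2 (w.val_ne (by simpa using hh)))] at h2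
        exact le_antisymm (h1 h) h2
    refine ⟨z, (uniq hK hF R _ _ fun x a hx => ?_).symm⟩
    have h1 := (res hK z).ev_spec ((hz x).1 (w.le_of_sub_lt hx))
    have h2 := lt_of_iff z.val w.val (algebraMap K B.F) (fun y hy => (hz y).1 hy) h1
    rw [map_sub, cst] at h2
    rw [w.const_eq hx h2, ← cst, ← map_sub, hio]
    exact h1
  refine ⟨{ B with
    ff := hF, io := io, io_val := hio, io_inj := hinj, io_or := hor, io_dv := fun h => ?_
    pl := pl, pl_val := hpl, pl_surj := fun w => (hor w).imp_right fun hw => ?_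
    uniq := uniq hK hF R, act := act, act_K := ha1, act_Ω := ha2 }⟩
  · ext w
    rw [dv_ap hF]
    by_cases hw : w ∈ Set.range io
    · obtain ⟨z, rfl⟩ := hw
      rw [Finsupp.mapDomain_apply hinj, dv_ap hK, Place.ord, Place.ord, hio]
    · rw [Finsupp.mapDomain_of_notMem_range _ _ hw]
      by_cases hh : h = 0
      · simp [hh]
      · exact w.ord_of_val_one ((hor w).resolve_left hw h hh)
  · have h1 : ∀ h : K, w.val (algebraMap K B.F h) ≤ 1 := fun h => by
      by_cases hh : h = 0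
      · simp [hh]
      · exact (hw h hh).le
    let η : K →ₐ[k] Ω :=
      { toFun := fun h => w.ev (algebraMap K B.F h)
        map_one' := by simp
        map_zero' := by simp
        map_mul' := fun a b => by rw [map_mul, (res hF w).ev_mul (h1 a) (h1 b)]
        map_add' := fun a b => by rw [map_add, (res hF w).ev_add (h1 a) (h1 b)]
        commutes' := fun c => by rw [cst, w.ev_const] }
    refine ⟨η, (uniq hK hF R _ _ fun x a hx => ?_).symm⟩
    rw [← w.ev_eq hx]
    exact hpl η x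

end Pool.Agent.MP_cce4c9_lc.H5
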