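import Pool.Agent.MP_cce4c9_lc.H87.SpecR

/-!
Naturality of the Taylor matrices, and their dependence on the coordinates.
-/

set_option autoImplicit false

open Polynomial Finset

namespace Pool.Agent.MP_cce4c9_lc.H5

open Pool.Agent.MP_cce4c9_lc.H87

namespace NatA

section Map

variable {R S : Type} [CommRing R] [CommRing S] (P : R →+* S) (F : R[X])

theorem ev_map (x : R) : (F.map P).eval (P x) = P (F.eval x) := by
  rw [eval_map, eval₂_at_apply]

theorem eta_map (x z : R) (n : ℕ) : (eta F x z n).map P = eta (F.map P) (P x) (P z) n := by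
  induction n with
  | zero => simp [H87.eta]
  | succ n ih =>
    simp only [H87.eta, Polynomial.map_mul, Polynomial.map_sub, Polynomial.map_add, map_C, map_X,
      map_comp, ih, derivative_map, ev_map]

theorem tcol_map (d m L : ℕ) (x z : ℕ → R) (a J : ℕ) :
    (tcol F d m L x z a J).map P =
      tcol (F.map P) d m L (fun i => P (x i)) (fun i => P (z i)) a J := by
  simp only [tcol, Polynomial.map_mul, Polynomial.map_pow, Polynomial.map_add,
    Polynomial.map_prod, map_C, map_X, eta_map, ev_map]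

theorem tt_map (d m l : ℕ) (b : ℕ → R) (ρ : ℕ × ℕ) (e J : ℕ) :
    P (TT F d m l b ρ e J) = TT (F.map P) d m l (fun i => P (b i)) ρ e J := by
  rw [TT, ← coeff_map, tcol_map]
  rfl

theorem crP_map (d m l : ℕ) (b : ℕ → R) (T : List (ℕ × ℕ)) (e J : ℕ) :
    P (crP F d m l b T e J) = crP (F.map P) d m l (fun i => P (b i)) T e J := by
  rw [crP, crP, RingHom.map_det]
  refine congrArg Matrix.det (Matrix.ext fun i j => ?_)
  simp only [RingHom.mapMatrix_apply, Matrix.map_apply, Matrix.of_apply]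
  split_ifs
  · rw [map_neg, tt_map]
  · rw [tt_map]

theorem vanP_map (d m l : ℕ) (b : ℕ → R) (c : ℕ → ℕ → R) (ρ : ℕ × ℕ) :
    P (vanP F d m l b c ρ) =
      vanP (F.map P) d m l (fun i => P (b i)) (fun e J => P (c e J)) ρ := by
  simp only [vanP, map_sum, map_mul, tt_map]

end Map

section Congr

variable {R : Type} [CommRing R] {F : R[X]} {d m l : ℕ} {b b' : ℕ → R}

theorem idx {j i : ℕ} (hj : j < mm d m) (hi : i < 2 * m) : 2 * m * j + i < nV d m := by
  have h := Nat.mul_le_mul_left (2 * m) (show j + 1 ≤ mm d m from hj)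
  rw [mul_add, mul_one] at h
  rw [nV]
  omega

omit [CommRing R] in
theorem xs_eq (hb : ∀ i < nV d m, b i = b' i) {j i : ℕ} (hj : j < mm d m) (hi : i < m) :
    xs m b j i = xs m b' j i := hb _ (idx hj (by omega))

omit [CommRing R] in
theorem zs_eq (hb : ∀ i < nV d m, b i = b' i) {j i : ℕ} (hj : j < mm d m) (hi : i < m) :
    zs m b j i = zs m b' j i := hb _ (by rw [add_assoc]; exact idx hj (by omega))

theorem tt_eq (hm : 0 < m) (hb : ∀ i < nV d m, b i = b' i) {j : ℕ} (hj : j < mm d m)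
    (r e J : ℕ) : TT F d m l b (j, r) e J = TT F d m l b' (j, r) e J := by
  simp only [TT, tcol]
  rw [xs_eq hb hj hm, prod_congr rfl fun i hi => by
    rw [xs_eq hb hj (mem_range.1 hi), zs_eq hb hj (mem_range.1 hi)]]

theorem vanP_eq (hm : 0 < m) (hb : ∀ i < nV d m, b i = b' i) {c c' : ℕ → ℕ → R}
    (hc : ∀ J < d ^ m, ∀ e, e + ds d m J ≤ l * N0 d m → c e J = c' e J) {j : ℕ}
    (hj : j < mm d m) (r : ℕ) : vanP F d m l b c (j, r) = vanP F d m l b' c' (j, r) := by
  refine sum_congr rfl fun J hJ => sum_congr rfl fun e he => ?_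
  have h := mem_range.1 he
  rw [tt_eq hm hb hj, hc J (mem_range.1 hJ) e (by omega)]

theorem ds_zero (d m : ℕ) : ds d m 0 = 0 := by
  rw [ds_eq]
  exact sum_eq_zero fun i _ => by simp [dig]

end Congr

end NatA

open NatA in
theorem nat_ : StmtNAT := by
  refine ⟨fun R S _ _ P F d m l b => ⟨tt_map P F d m l b, crP_map P F d m l b,
    vanP_map P F d m l b⟩, ?_⟩
  intro R _ F d m l b b' μ μ' fx fx' c c' hm hd hb hμ hc
  refine ⟨fun h => ⟨fun j hj i hi => ?_, fun j hj j' hj' h1 h2 => ?_, ?_, fun j hj r hr => ?_⟩,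
    fun h j hj h1 => ?_, fun h c₀ h0 h1 => h c₀ h0 fun j hj r hr => ?_,
    fun h => ⟨?_, fun j hj => ?_⟩⟩
  · rw [← xs_eq hb hj hi, ← xs_eq hb hj hm, ← zs_eq hb hj hi]
    exact h.1 j hj i hi
  · obtain ⟨i, hi, h3⟩ := h.2.1 j hj j' hj' (by rwa [(hμ j hj).1])
      (by rwa [(hμ j' (hj'.trans hj)).1])
    exact ⟨i, hi, by rwa [← xs_eq hb hj hi, ← xs_eq hb (hj'.trans hj) hi]⟩
  · rw [← hc 0 (pow_pos hd m) 0 (by rw [ds_zero]; exact Nat.zero_le _)]
    exact h.2.2.1
  · rw [← vanP_eq hm hb hc hj]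
    exact h.2.2.2 j hj r (by rwa [(hμ j hj).1])
  · rw [← xs_eq hb hj hm]
    exact h j hj (by rwa [(hμ j hj).2])
  · rw [vanP_eq hm hb (fun _ _ _ _ => rfl) hj]
    exact h1 j hj r (by rwa [← (hμ j hj).1, ← (hμ j hj).2])
  · exact (sum_congr rfl fun j hj => (hμ j (mem_range.1 hj)).1.symm).trans h.1
  · rw [← (hμ j hj).1, ← (hμ j hj).2]
    exact h.2 j hj

end Pool.Agent.MP_cce4c9_lc.H5
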